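import Pool.Agent.W724.ELG.C1BCore

set_option autoImplicit false

/-!
Case (1b), general `e` (after Pool.Agent.W358.ELT.C1B).
-/

namespace Pool.Agent.W724.ELG

open Pool.Agent.W622.ETG Module

theorem t_C1B (hFIND : S_FIND) (hFDEC : S_FDEC) (hFUNI : S_FUNI) (hF5 : S_F5) (hBNT : S_BNT)
    (hBEV : S_BEV) (hFULL : S_FULL) (hA4 : S_A4) (hOM : S_OM) : S_C1B := by
  classical
  intro V _ _ _ e A m hFW hdims hexm hdim
  have hMC := hFW.mc
  have hef := hMC.ef
  have hbad : ∀ B ∈ BB e A, om e A B ∈ A ∧ om e A B ≠ 0 ∧ sp (om e A B) = B ∧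
      2 ≤ finrank (ZMod 2) B := by
    intro B hB
    have h1 := hBEV V e A hMC B hB
    have h2 := hOM V e A B hef h1.1
    exact ⟨h2.1, h2.2.1, h2.2.2.1, h1.2⟩
  have hnt : ∀ B ∈ BB e A, B ≠ ⊤ ∧ B ≠ ⊥ := fun B hB => hBNT V e A B hMC hB.1
  have htopne : (⊥ : DSub V) ≠ ⊤ := by
    intro h
    have h1 : finrank (ZMod 2) (⊤ : DSub V) = 0 := by rw [← h, finrank_bot]
    rw [finrank_top, finrank_Dl] at h1
    have := hFW.four
    omega
  -- a maximal cone is good, so `3 ≤ dim P`
  have hd3 : 3 ≤ finrank (ZMod 2) (PP e A) := by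
    obtain ⟨Z, hZ⟩ := hFW.cone
    -- a cone of maximal dimension
    have hex : ∃ n : ℕ, ∃ Y : DSub V, IsCone e A Y ∧ finrank (ZMod 2) (Dl V) -
        finrank (ZMod 2) Y = n := ⟨_, Z, hZ, rfl⟩
    obtain ⟨Y, hY, hYn⟩ := Nat.find_spec hex
    have hmax : MaxCone e A Y := by
      refine ⟨hY, fun Y' hY' hle => ?_⟩
      have h1 := Nat.find_min' hex ⟨Y', hY', rfl⟩
      rw [← hYn] at h1
      have h2 := Submodule.finrank_le Y'
      have h3 := Submodule.finrank_le Y
      have h4 := Submodule.finrank_mono hle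
      exact (Submodule.eq_of_le_of_finrank_le hle (by omega)).symm
    have hgood : Y ∈ GB e A := ⟨Or.inl hmax, hA4 V e A Y hMC hmax⟩
    obtain ⟨p, hp⟩ := hY
    exact hp.1.trans (Submodule.finrank_mono (le_sSup hgood))
  -- disjointness from P
  have hdisj : ∀ B ∈ BB e A, Disjoint B (PP e A) := by
    intro B hB
    have h1 : sSup ({B} : Set (DSub V)) ≠ ⊤ := by rw [sSup_singleton]; exact (hnt B hB).1
    have h2 := hFIND V e A {B} hFW (Set.singleton_subset_iff.mpr hB) h1
    refine h2.disjoint_sSup (Or.inr rfl) (fun _ h => Or.inl h) ?_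
    intro h3
    exact hB.2 h3.2
  -- the smallest dimension is at least two
  have hm2 : 2 ≤ m := by
    obtain ⟨B, hB, rfl⟩ := hexm
    exact (hbad B hB).2.2.2
  -- two bad blocks span
  have htop : ∀ B ∈ BB e A, ∀ B' ∈ BB e A, B ≠ B' → B ⊔ B' = ⊤ := by
    intro B hB B' hB' hne
    by_contra hc
    have h1 : sSup ({B, B'} : Set (DSub V)) ≠ ⊤ := by rw [sSup_pair]; exact hc
    have h0 : ({B, B'} : Set (DSub V)) ⊆ BB e A := by
      rintro x (rfl | rfl)
      · exact hB
      · exact hB'
    have h2 := hFIND V e A {B, B'} hFW h0 h1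
    have h3 : Disjoint B (sSup (insert B' (GB e A))) := by
      refine h2.disjoint_sSup (Or.inr (Or.inl rfl)) ?_ ?_
      · rintro x (rfl | hx)
        · exact Or.inr (Or.inr rfl)
        · exact Or.inl hx
      · rintro (h4 | h4)
        · exact hne h4
        · exact hB.2 h4.2
    rw [sSup_insert] at h3
    have h5 := Submodule.finrank_sup_add_finrank_inf_eq B (B' ⊔ sSup (GB e A))
    rw [h3.eq_bot, finrank_bot, add_zero] at h5
    have h6 := Submodule.finrank_sup_add_finrank_inf_eq B' (sSup (GB e A))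
    rw [show B' ⊓ sSup (GB e A) = ⊥ from (hdisj B' hB').eq_bot, finrank_bot, add_zero] at h6
    have h7 : finrank (ZMod 2) (B ⊔ (B' ⊔ sSup (GB e A)) : DSub V) ≤ finrank (ZMod 2) (Dl V) :=
      Submodule.finrank_le _
    rw [finrank_Dl] at h7
    have h8 := hdims B hB
    have h9 := hdims B' hB'
    unfold PP at hdim
    omega
  -- there are two bad blocks
  have htwo : ∃ B ∈ BB e A, ∃ B' ∈ BB e A, B ≠ B' := by
    have h1 := hF5 V e A hFW
    obtain ⟨B, hB, -⟩ := hexm
    refine ⟨B, hB, ?_⟩
    by_contra hc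
    push Not at hc
    have h3 : BB e A = {B} := by
      ext x
      exact ⟨fun hx => (hc x hx).symm, fun hx => by rw [Set.mem_singleton_iff.mp hx]; exact hB⟩
    rw [h3, sSup_singleton] at h1
    exact (hnt B hB).1 h1
  set Ag : Fam V := ⨆ X ∈ GB e A, res A X with hAg
  have hAgA : Ag ≤ A := iSup₂_le fun X _ => res_le A X
  have hAgP : Ag ≤ res A (PP e A) := iSup₂_le fun X hX => res_mono A (le_sSup hX)
  -- decomposition
  have hsub : ∀ N : Finset (DSub V), (N : Set (DSub V)) ⊆ BB e A →
      sSup (N : Set (DSub V)) ≠ ⊤ → N = ∅ ∨ ∃ B ∈ BB e A, N = {B} := by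
    intro N hN hNt
    rcases N.eq_empty_or_nonempty with h1 | ⟨B, hB⟩
    · exact Or.inl h1
    · right
      refine ⟨B, hN hB, ?_⟩
      rw [Finset.eq_singleton_iff_unique_mem]
      refine ⟨hB, fun B' hB' => ?_⟩
      by_contra hne
      apply hNt
      rw [eq_top_iff, ← htop B' (hN hB') B (hN hB) hne]
      exact sup_le (le_sSup hB') (le_sSup hB)
  have hctx : Ctx e A (PP e A) Ag (BB e A) (om e A) m (finrank (ZMod 2) (PP e A)) := by
    refine
      { ef := hef
        lk := hMC.her.linked
        oA := fun B hB => (hbad B hB).1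
        osp := fun B hB => (hbad B hB).2.2.1
        dimB := hdims
        m2 := hm2
        dimP := rfl
        d3 := hd3
        dim := by omega
        disj := hdisj
        top := htop
        exm := hexm
        two := htwo
        agA := hAgA
        agP := fun γ hγ => (mem_res'.mp (hAgP hγ)).2
        dec := ?_
        uni := ?_
        uni0 := ?_
        full := ?_ }
    · intro ζ hζ
      obtain ⟨N, hN, hNt, γ, hγ, he⟩ := hFDEC V e A ζ hFW hζ
      refine ⟨γ, hγ, ?_⟩
      rcases hsub N hN hNt with rfl | ⟨B, hB, rfl⟩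
      · left; rw [he, Finset.sum_empty, add_zero]
      · right; refine ⟨B, hB, ?_⟩; rw [he, Finset.sum_singleton]
    · intro γ hγ γ' hγ' B hB B' hB' he
      have h1 := hFUNI V e A {B} {B'} γ γ' hFW (by simpa using hB) (by simpa using hB')
        (by simpa using (hnt B hB).1) (by simpa using (hnt B' hB').1) hγ hγ'
        (by rw [Finset.sum_singleton, Finset.sum_singleton]; exact he)
      exact ⟨h1.1, Finset.singleton_injective h1.2⟩
    · intro γ hγ γ' hγ' B hB he
      have h1 := hFUNI V e A {B} ∅ γ γ' hFW (by simpa using hB) (by simp)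
        (by simpa using (hnt B hB).1) (by simpa using htopne) hγ hγ'
        (by rw [Finset.sum_singleton, Finset.sum_empty, add_zero]; exact he)
      exact Finset.singleton_ne_empty B h1.2
    · intro g hg
      have hres : ∀ X ∈ GB e A, res Ag X = res A X := by
        intro X hX
        refine le_antisymm (res_mono_left hAgA X) ?_
        intro ω hω
        exact ⟨le_iSup₂_of_le (f := fun X (_ : X ∈ GB e A) => res A X) X hX le_rfl hω, hω.2⟩
      have hcomps : Comps e Ag (GB e A) := by
        refine ⟨?_, ?_, ?_⟩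
        · have := hFIND V e A ∅ hFW (Set.empty_subset _) (by rw [sSup_empty]; exact htopne)
          rwa [Set.union_empty] at this
        · rw [hAg]
          refine le_antisymm ?_ ?_
          · exact iSup₂_mono fun X hX => (hres X hX).ge
          · exact iSup₂_le fun X hX => res_le _ X
        · intro X hX
          have hXA : ∀ ω ∈ A, sp ω ≤ X → ω ∈ Ag := by
            intro ω hω hs
            have h1 : ω ∈ res A X := mem_res'.mpr ⟨hω, hs⟩
            rw [← hres X hX] at h1
            exact h1.1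
          rcases hX.1 with h1 | ⟨ω, h1, h2, h3⟩
          · right
            obtain ⟨⟨p, hp⟩, -⟩ := h1
            refine ⟨p, hp.1, hp.2.1, hp.2.2.1, hp.2.2.2.1, fun g hg => ?_⟩
            refine hXA _ (hp.2.2.2.2 g hg) ?_
            refine (sp_wd_le p g).trans ?_
            rw [Submodule.span_le]
            rintro x (rfl | rfl)
            · exact hp.2.1
            · exact hg
          · left
            refine ⟨ω, ⟨hXA ω h1.1 h2.ge, h1.2.1, fun η hη hs => h1.2.2 η (hAgA hη) hs⟩, h2⟩
      obtain ⟨γ, hγ, a, ha⟩ := hFULL V e Ag (GB e A) g (fun ω hω => hef ω (hAgA hω)) hcomps hg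
      exact ⟨γ, hγ, a, ha⟩
  exact hctx.false

end Pool.Agent.W724.ELG
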