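import Pool.Agent.W622.ETG.Lin

set_option autoImplicit false
set_option linter.unusedSectionVars false

/-!
Abstract counting core for the case (1b), general `e` (after Pool.Agent.W358.ELT.C1BCore).
-/

namespace Pool.Agent.W724.ELG

open Pool.Agent.W622.ETG Module

variable {V : Type} [AddCommGroup V] [Module (ZMod 2) V] [Finite V]

theorem az {M : Type} [AddCommGroup M] [Module (ZMod 2) M] {v w : M} : v + w = 0 ↔ v = w :=
  Pool.Agent.W622.ETC.add_eq_zero'

theorem card_fam (A : Fam V) : Nat.card A = 2 ^ finrank (ZMod 2) A := by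
  let _ := @Submodule.addCommGroup (ZMod 2) (Frm V) _ _ _ A
  have := Module.natCard_eq_pow_finrank (K := ZMod 2) (V := A)
  rwa [Nat.card_zmod] at this

theorem ac (a b : Frm V) : a + b + b = a := by
  refine LinearMap.ext fun x => ?_
  rw [LinearMap.add_apply, LinearMap.add_apply]
  exact Pool.Agent.W622.ETC.add_cancel' (a x) (b x)

theorem ncard_sub (W : Submodule (ZMod 2) V) : (W : Set V).ncard = 2 ^ finrank (ZMod 2) W := by
  have h : Nat.card W = 2 ^ finrank (ZMod 2) W := by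
    have := Module.natCard_eq_pow_finrank (K := ZMod 2) (V := W)
    rwa [Nat.card_zmod] at this
  rw [← h]; rfl

theorem ann_inj {b c : V} (h : ann b = ann c) : b = c := by
  have key : ∀ f : Dl V, f b = f c := by
    intro f
    have h1 : f ∈ ann b ↔ f ∈ ann c := by rw [h]
    rw [mem_ann, mem_ann] at h1
    rcases z01 (f b) with h2 | h2
    · rw [h2, h1.mp h2]
    · rcases z01 (f c) with h3 | h3
      · rw [h1.mpr h3] at h2; exact absurd h2 zero_ne_one
      · rw [h2, h3]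
  have h2 : b + c = 0 := by
    rw [← Module.forall_dual_apply_eq_zero_iff (ZMod 2)]
    intro f
    rw [map_add]
    have := key f
    rw [this]
    exact zadd _
  exact az.mp h2

/-- the data of case (1b) -/
structure Ctx (e : V) (A : Fam V) (P : DSub V) (Ag : Fam V) (S : Set (DSub V))
    (o : DSub V → Frm V) (m d : ℕ) : Prop where
  ef : EFam e A
  lk : Linked A
  oA : ∀ B ∈ S, o B ∈ A
  osp : ∀ B ∈ S, sp (o B) = B
  dimB : ∀ B ∈ S, finrank (ZMod 2) B = m ∨ finrank (ZMod 2) B = m + 1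
  m2 : 2 ≤ m
  dimP : finrank (ZMod 2) P = d
  d3 : 3 ≤ d
  dim : finrank (ZMod 2) V = m + d + 1
  disj : ∀ B ∈ S, Disjoint B P
  top : ∀ B ∈ S, ∀ B' ∈ S, B ≠ B' → B ⊔ B' = ⊤
  exm : ∃ B ∈ S, finrank (ZMod 2) B = m
  two : ∃ B ∈ S, ∃ B' ∈ S, B ≠ B'
  agA : Ag ≤ A
  agP : ∀ γ ∈ Ag, sp γ ≤ P
  dec : ∀ ζ ∈ A, ∃ γ ∈ Ag, ζ = γ ∨ ∃ B ∈ S, ζ = γ + o B
  uni : ∀ γ ∈ Ag, ∀ γ' ∈ Ag, ∀ B ∈ S, ∀ B' ∈ S, γ + o B = γ' + o B' → γ = γ' ∧ B = B'
  uni0 : ∀ γ ∈ Ag, ∀ γ' ∈ Ag, ∀ B ∈ S, γ + o B ≠ γ'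
  full : ∀ g ∈ P, ∃ γ ∈ Ag, ∃ a : V, γ a = g

/-- the members of dimension `m` -/
def SS (S : Set (DSub V)) (m : ℕ) : Set (DSub V) := {B | B ∈ S ∧ finrank (ZMod 2) B = m}

section
variable {e : V} {A : Fam V} {P : DSub V} {Ag : Fam V} {S : Set (DSub V)} {o : DSub V → Frm V}
  {m d : ℕ}

theorem Ctx.sup_dim (h : Ctx e A P Ag S o m d) {B : DSub V} (hB : B ∈ S) :
    finrank (ZMod 2) (B ⊔ P : DSub V) = finrank (ZMod 2) B + d := by
  have h1 := Submodule.finrank_sup_add_finrank_inf_eq B P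
  rw [(h.disj B hB).eq_bot, finrank_bot, add_zero, h.dimP] at h1
  exact h1

theorem Ctx.exc (h : Ctx e A P Ag S o m d) {B : DSub V} (hB : B ∈ SS S m) :
    ∃ c : V, c ≠ 0 ∧ B ⊔ P = ann c := by
  have h1 : (B ⊔ P : DSub V) ≠ ⊤ := by
    intro h2
    have h3 := h.sup_dim hB.1
    rw [h2, finrank_top, finrank_Dl, h.dim, hB.2] at h3
    omega
  obtain ⟨c, hc, hle⟩ := exists_ann h1
  refine ⟨c, hc, Submodule.eq_of_le_of_finrank_eq hle ?_⟩
  have h2 := finrank_ann hc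
  rw [h.sup_dim hB.1, hB.2]
  rw [h.dim] at h2
  omega

/-- members killing an element of `U` have dimension `m` -/
theorem Ctx.killS (h : Ctx e A P Ag S o m d) {B : DSub V} (hB : B ∈ S) {b : V} (hb : b ≠ 0)
    (hP : P ≤ ann b) (h0 : o B b = 0) : B ∈ SS S m := by
  refine ⟨hB, ?_⟩
  have h1 : B ≤ ann b := by
    have := ((h.ef _ (h.oA B hB)).ker_iff_ann).mp h0
    rwa [h.osp B hB] at this
  have h2 : finrank (ZMod 2) (B ⊔ P : DSub V) ≤ finrank (ZMod 2) (ann b : DSub V) :=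
    Submodule.finrank_mono (sup_le h1 hP)
  have h3 := finrank_ann hb
  rw [h.sup_dim hB] at h2
  rw [h.dim] at h3
  have := h.dimB B hB
  omega

/-- members of `U` killed by `o B` -/
theorem Ctx.kill (h : Ctx e A P Ag S o m d) {B : DSub V} (hB : B ∈ S) {b c : V} (hb : b ≠ 0)
    (hP : P ≤ ann b) (h0 : o B b = 0) (hc0 : c ≠ 0) (hc : B ⊔ P = ann c) : b = c := by
  have h1 : B ≤ ann b := by
    have := ((h.ef _ (h.oA B hB)).ker_iff_ann).mp h0
    rwa [h.osp B hB] at this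
  have h2 : ann c ≤ ann b := hc ▸ sup_le h1 hP
  have h3 : (ann c : DSub V) = ann b := by
    refine Submodule.eq_of_le_of_finrank_eq h2 ?_
    have := finrank_ann hb
    have := finrank_ann hc0
    omega
  exact (ann_inj h3).symm

theorem Ctx.oker (h : Ctx e A P Ag S o m d) {B : DSub V} (hB : B ∈ S) {c : V}
    (hc : B ≤ ann c) : o B c = 0 := by
  refine ((h.ef _ (h.oA B hB)).ker_iff_ann).mpr ?_
  rwa [h.osp B hB]

theorem Ctx.gker (h : Ctx e A P Ag S o m d) {γ : Frm V} (hγ : γ ∈ Ag) {c : V}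
    (hc : P ≤ ann c) : γ c = 0 :=
  ((h.ef _ (h.agA hγ)).ker_iff_ann).mpr ((h.agP γ hγ).trans hc)

/-- the choice function -/
theorem Ctx.exfun (h : Ctx e A P Ag S o m d) :
    ∃ c : DSub V → V, ∀ B ∈ SS S m, c B ≠ 0 ∧ B ⊔ P = ann (c B) := by
  classical
  refine ⟨fun B => if hB : B ∈ SS S m then (h.exc hB).choose else 0, fun B hB => ?_⟩
  simp only [dif_pos hB]
  exact (h.exc hB).choose_spec

/-- the main claim -/
theorem Ctx.claim (h : Ctx e A P Ag S o m d) {c : DSub V → V}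
    (hc : ∀ B ∈ SS S m, c B ≠ 0 ∧ B ⊔ P = ann (c B)) {B B' : DSub V} (hB : B ∈ S)
    (hB' : B' ∈ SS S m)
    (hne : B' ≠ B) {b : V} (hb : b ≠ 0) (hbU : P ≤ ann b) (h0 : o B b (c B') = 0) :
    ∃ B₂ ∈ SS S m, b = c B₂ := by
  by_contra hcon
  push Not at hcon
  have hbc : ∀ B₂ ∈ S, o B₂ b ≠ 0 := by
    intro B₂ hB₂ h1
    have hB₂' := h.killS hB₂ hb hbU h1
    exact hcon B₂ hB₂' (h.kill hB₂ hb hbU h1 (hc B₂ hB₂').1 (hc B₂ hB₂').2)
  have hBP : B' ≤ ann (c B') := (le_sup_left).trans (hc B' hB').2.le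
  have hPP : P ≤ ann (c B') := (le_sup_right).trans (hc B' hB').2.le
  have hf0 : o B b ≠ 0 := hbc B hB
  have hfB : o B b ∈ B := by
    have : o B b ∈ sp (o B) := ⟨b, rfl⟩
    rwa [h.osp B hB] at this
  have hfm : o B b ∈ B' ⊔ P := by rw [(hc B' hB').2]; exact h0
  obtain ⟨f', hf', g, hg, hfg⟩ := Submodule.mem_sup.mp hfm
  have hf'2 : f' ∈ sp (o B') := by rwa [h.osp B' hB'.1]
  obtain ⟨a₁, ha₁⟩ := hf'2
  obtain ⟨γ, hγ, a₂, ha₂⟩ := h.full g hg
  obtain ⟨a, haB, haP⟩ := exists_glue (h.disj B' hB'.1) a₁ a₂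
  have hoa : o B' a = f' := by
    have h1 : o B' (a + a₁) = 0 := by
      refine h.oker hB'.1 ?_
      intro f hf
      rw [mem_ann, map_add, haB f hf]
      exact zadd _
    rw [map_add] at h1
    rw [az.mp h1, ha₁]
  have hγa : γ a = g := by
    have h1 : γ (a + a₂) = 0 := by
      refine h.gker hγ ?_
      intro f hf
      rw [mem_ann, map_add, haP f hf]
      exact zadd _
    rw [map_add] at h1
    rw [az.mp h1, ha₂]
  -- both `a` and `a + c B'` work
  have key : ∀ a : V, o B' a = f' → γ a = g → o B a = o B b := by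
    intro a h1 h2
    have h3 : (o B' + γ) a = o B b := by
      rw [LinearMap.add_apply, h1, h2, hfg]
    obtain ⟨ζ, hζ, hζa, hζb⟩ := h.lk _ (A.add_mem (h.oA B' hB'.1) (h.agA hγ)) _ (h.oA B hB) a b h3
    rw [h3] at hζa hζb
    obtain ⟨γ₁, hγ₁, hcase⟩ := h.dec ζ hζ
    have hγ₁b : γ₁ b = 0 := h.gker hγ₁ hbU
    rcases hcase with rfl | ⟨B₁, hB₁, rfl⟩
    · exact absurd (hζb.symm.trans hγ₁b) hf0
    · have h4 : o B₁ b = o B b := by
        rw [LinearMap.add_apply, hγ₁b, zero_add] at hζb; exact hζb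
      by_cases hBB : B₁ = B
      · subst hBB
        have h5 : γ₁ a = o B₁ b + o B₁ a := by
          rw [LinearMap.add_apply] at hζa
          rw [← hζa, add_assoc, vadd, add_zero]
        have h6 : γ₁ a ∈ B₁ ⊓ P := by
          refine ⟨?_, h.agP γ₁ hγ₁ ⟨a, rfl⟩⟩
          rw [h5]
          refine B₁.add_mem hfB ?_
          have : o B₁ a ∈ sp (o B₁) := ⟨a, rfl⟩
          rwa [h.osp B₁ hB₁] at this
        rw [(h.disj B₁ hB₁).eq_bot, Submodule.mem_bot] at h6
        rw [h6] at h5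
        exact (az.mp h5.symm).symm
      · exfalso
        obtain ⟨γ₂, hγ₂, hc2⟩ := h.dec (o B + o B₁) (A.add_mem (h.oA B hB) (h.oA B₁ hB₁))
        have h7 : (o B + o B₁) b = 0 := by rw [LinearMap.add_apply, h4, vadd]
        rcases hc2 with h8 | ⟨B₂, hB₂, h8⟩
        · have h9 : γ₂ + o B₁ = 0 + o B :=
            calc γ₂ + o B₁ = (o B + o B₁) + o B₁ := by rw [h8]
              _ = o B := ac _ _
              _ = 0 + o B := (zero_add _).symm
          exact hBB (h.uni γ₂ hγ₂ 0 Ag.zero_mem B₁ hB₁ B hB h9).2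
        · have h9 : o B₂ b = 0 := by
            rw [h8, LinearMap.add_apply, h.gker hγ₂ hbU, zero_add] at h7
            exact h7
          exact hbc B₂ hB₂ h9
  have e1 := key a hoa hγa
  have e2 := key (a + c B') (by rw [map_add, h.oker hB'.1 hBP, add_zero, hoa])
    (by rw [map_add, h.gker hγ hPP, add_zero, hγa])
  have e3 : o B (c B') = 0 := by
    rw [map_add, e1] at e2
    have := congrArg (fun x => o B b + x) e2
    simp only [vadd] at this
    rwa [add_cancel_left'] at this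
  have hBS := h.killS hB (hc B' hB').1 hPP e3
  have e4 := h.kill hB (hc B' hB').1 hPP e3 (hc B hBS).1 (hc B hBS).2
  -- `c B = c B'` is killed by `B ⊔ B' = ⊤`
  have e5 : (⊤ : DSub V) ≤ ann (c B') := by
    rw [← h.top B hB B' hB'.1 (Ne.symm hne)]
    refine sup_le ?_ hBP
    rw [e4]
    exact (le_sup_left).trans (hc B hBS).2.le
  exact ann_ne_top (hc B' hB').1 (top_le_iff.mp e5)

theorem Ctx.cinj (h : Ctx e A P Ag S o m d) {c : DSub V → V}
    (hc : ∀ B ∈ SS S m, c B ≠ 0 ∧ B ⊔ P = ann (c B)) {B B' : DSub V} (hB : B ∈ SS S m)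
    (hB' : B' ∈ SS S m) (he : c B = c B') : B = B' := by
  by_contra hne
  have e5 : (⊤ : DSub V) ≤ ann (c B') := by
    rw [← h.top B hB.1 B' hB'.1 hne]
    refine sup_le ?_ ((le_sup_left).trans (hc B' hB').2.le)
    rw [← he]
    exact (le_sup_left).trans (hc B hB).2.le
  exact ann_ne_top (hc B' hB').1 (top_le_iff.mp e5)

/-- counting the family -/
theorem Ctx.count (h : Ctx e A P Ag S o m d) :
    Nat.card A = Nat.card Ag * (S.ncard + 1) := by
  classical
  let f : Ag × Option S → A := fun x =>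
    ⟨x.1.1 + (match x.2 with | none => 0 | some B => o B.1), by
      rcases x with ⟨γ, _ | B⟩
      · exact A.add_mem (h.agA γ.2) A.zero_mem
      · exact A.add_mem (h.agA γ.2) (h.oA B.1 B.2)⟩
  have hf : Function.Bijective f := by
    constructor
    · rintro ⟨γ, x⟩ ⟨γ', x'⟩ he
      have he' := congrArg Subtype.val he
      rcases x with _ | B <;> rcases x' with _ | B'
      · simp only [f, add_zero] at he'
        rw [Subtype.ext he']
      · simp only [f, add_zero] at he'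
        exact absurd he'.symm (h.uni0 _ γ'.2 _ γ.2 _ B'.2)
      · simp only [f, add_zero] at he'
        exact absurd he' (h.uni0 _ γ.2 _ γ'.2 _ B.2)
      · simp only [f] at he'
        obtain ⟨h1, h2⟩ := h.uni _ γ.2 _ γ'.2 _ B.2 _ B'.2 he'
        rw [Subtype.ext h1, Subtype.ext h2]
    · rintro ⟨ζ, hζ⟩
      obtain ⟨γ, hγ, rfl | ⟨B, hB, rfl⟩⟩ := h.dec ζ hζ
      · exact ⟨(⟨ζ, hγ⟩, none), Subtype.ext (add_zero _)⟩
      · exact ⟨(⟨γ, hγ⟩, some ⟨B, hB⟩), rfl⟩
  rw [← Nat.card_congr (Equiv.ofBijective f hf), Nat.card_prod]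
  congr 1
  rw [Finite.card_option]
  rfl

theorem Ctx.pow (h : Ctx e A P Ag S o m d) : ∃ D : ℕ, S.ncard + 1 = 2 ^ D := by
  have h1 := h.count
  have h2 : Nat.card A = 2 ^ finrank (ZMod 2) A := card_fam A
  have h3 : S.ncard + 1 ∣ 2 ^ finrank (ZMod 2) A := by
    rw [← h2, h1]; exact Dvd.intro_left _ rfl
  obtain ⟨k, -, hk⟩ := (Nat.dvd_prime_pow Nat.prime_two).mp h3
  exact ⟨k, hk⟩

/-- the subspace killed by `P` -/
def UU (P : DSub V) : Submodule (ZMod 2) V := P.dualCoannihilator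

theorem mem_UU {P : DSub V} {u : V} : u ∈ UU P ↔ P ≤ ann u :=
  Submodule.mem_dualCoannihilator u

theorem finrank_UU (P : DSub V) :
    finrank (ZMod 2) P + finrank (ZMod 2) (UU P) = finrank (ZMod 2) V :=
  Subspace.finrank_add_finrank_dualCoannihilator_eq P

/-- the kernel of a functional inside a subspace -/
theorem ker_dim (W : Submodule (ZMod 2) V) (φ : Dl V) :
    finrank (ZMod 2) W ≤ finrank (ZMod 2) (W ⊓ LinearMap.ker φ : Submodule (ZMod 2) V) + 1 := by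
  have h1 := Submodule.finrank_sup_add_finrank_inf_eq W (LinearMap.ker φ)
  have h2 : finrank (ZMod 2) (W ⊔ LinearMap.ker φ : Submodule (ZMod 2) V) ≤
      finrank (ZMod 2) V := Submodule.finrank_le _
  have h3 := LinearMap.finrank_range_add_finrank_ker φ
  have h4 : finrank (ZMod 2) (LinearMap.range φ) ≤ 1 := by
    have := Submodule.finrank_le (LinearMap.range φ)
    rwa [Module.finrank_self] at this
  omega

theorem Ctx.dimU (h : Ctx e A P Ag S o m d) : finrank (ZMod 2) (UU P) = m + 1 := by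
  have := finrank_UU P
  rw [h.dimP, h.dim] at this
  omega

theorem Ctx.ncard_image (h : Ctx e A P Ag S o m d) {c : DSub V → V}
    (hc : ∀ B ∈ SS S m, c B ≠ 0 ∧ B ⊔ P = ann (c B)) :
    (insert 0 (c '' SS S m)).ncard = (SS S m).ncard + 1 := by
  have h1 : Set.InjOn c (SS S m) := fun B hB B' hB' he => h.cinj hc hB hB' he
  rw [Set.ncard_insert_of_notMem _ (Set.toFinite _), h1.ncard_image]
  rintro ⟨B, hB, h0⟩
  exact (hc B hB).1 h0

theorem Ctx.hyp_sub (h : Ctx e A P Ag S o m d) {c : DSub V → V}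
    (hc : ∀ B ∈ SS S m, c B ≠ 0 ∧ B ⊔ P = ann (c B)) {B B' : DSub V} (hB : B ∈ S)
    (hB' : B' ∈ SS S m) (hne : B' ≠ B) :
    ((UU P ⊓ LinearMap.ker (o B (c B')) : Submodule (ZMod 2) V) : Set V) ⊆
      insert 0 (c '' SS S m) := by
  rintro x ⟨hx1, hx2⟩
  by_cases hx : x = 0
  · exact Or.inl hx
  · right
    have h0 : o B x (c B') = 0 := by
      rw [(h.ef _ (h.oA B hB)).symm]; exact hx2
    obtain ⟨B₂, hB₂, he⟩ := h.claim hc hB hB' hne hx (mem_UU.mp hx1) h0
    exact ⟨B₂, hB₂, he.symm⟩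

/-- another member -/
theorem Ctx.other (h : Ctx e A P Ag S o m d) (B : DSub V) : ∃ B' ∈ S, B ≠ B' := by
  obtain ⟨B₁, hB₁, B₂, hB₂, hne⟩ := h.two
  by_cases h1 : B = B₁
  · exact ⟨B₂, hB₂, by rw [h1]; exact hne⟩
  · exact ⟨B₁, hB₁, h1⟩

/-- at most three members is impossible -/
theorem Ctx.small (h : Ctx e A P Ag S o m d) (hS : S.ncard ≤ 3) : False := by
  obtain ⟨c, hc⟩ := h.exfun
  obtain ⟨B', hB'1, hB'2⟩ := h.exm
  obtain ⟨B, hB, hne⟩ := h.other B'
  have hB' : B' ∈ SS S m := ⟨hB'1, hB'2⟩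
  have h2 := Set.ncard_le_ncard (h.hyp_sub hc hB hB' hne) (Set.toFinite _)
  rw [h.ncard_image hc, ncard_sub] at h2
  have h3 := ker_dim (UU P) (o B (c B'))
  rw [h.dimU] at h3
  have h4 : (SS S m).ncard ≤ S.ncard := Set.ncard_le_ncard (fun B h => h.1) (Set.toFinite _)
  have h5 : 2 ^ finrank (ZMod 2) (UU P ⊓ LinearMap.ker (o B (c B')) : Submodule (ZMod 2) V) ≤
      2 ^ 2 := by omega
  have h6 := (Nat.pow_le_pow_iff_right (by norm_num : 1 < 2)).mp h5
  have hm := h.m2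
  have hm2 : m = 2 := by omega
  have h7 : 2 ^ 2 ≤
      2 ^ finrank (ZMod 2) (UU P ⊓ LinearMap.ker (o B (c B')) : Submodule (ZMod 2) V) :=
    Nat.pow_le_pow_right (by norm_num) (by omega)
  have h8 : SS S m = S :=
    Set.eq_of_subset_of_ncard_le (fun B h => h.1) (by omega) (Set.toFinite _)
  have hB2 : finrank (ZMod 2) B = m := by
    have : B ∈ SS S m := by rw [h8]; exact hB
    exact this.2
  have h9 := Submodule.finrank_add_le_finrank_add_finrank B' B
  rw [h.top B' hB'1 B hB hne, finrank_top, finrank_Dl, h.dim, hB2, hB'2] at h9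
  have := h.d3
  omega

/-- with at least four members all of `U` is hit -/
theorem Ctx.allU (h : Ctx e A P Ag S o m d) (hS : 4 ≤ S.ncard) {c : DSub V → V}
    (hc : ∀ B ∈ SS S m, c B ≠ 0 ∧ B ⊔ P = ann (c B)) :
    (UU P : Set V) ⊆ insert 0 (c '' SS S m) := by
  classical
  intro x hx
  by_contra hcon
  have hx0 : x ≠ 0 := fun h0 => hcon (Or.inl h0)
  have hxP : P ≤ ann x := mem_UU.mp hx
  obtain ⟨B', hB'1, hB'2⟩ := h.exm
  have hB' : B' ∈ SS S m := ⟨hB'1, hB'2⟩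
  have hPP : P ≤ ann (c B') := (le_sup_right).trans (hc B' hB').2.le
  have h1 : ∀ B ∈ S, B ≠ B' → o B (c B') x = 1 := by
    intro B hB hne
    refine z_ne fun h0 => hcon ?_
    exact h.hyp_sub hc hB hB' (Ne.symm hne) ⟨hx, h0⟩
  -- the sum of two members
  have h2 : ∀ B₁ ∈ S, ∀ B₂ ∈ S, B₁ ≠ B₂ → B₁ ≠ B' → B₂ ≠ B' →
      ∃ γ ∈ Ag, o B₁ + o B₂ = γ + o B' := by
    intro B₁ hB₁ B₂ hB₂ hne hn1 hn2
    obtain ⟨γ, hγ, hc2⟩ := h.dec (o B₁ + o B₂) (A.add_mem (h.oA B₁ hB₁) (h.oA B₂ hB₂))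
    rcases hc2 with h8 | ⟨B₃, hB₃, h8⟩
    · exfalso
      have h9 : γ + o B₂ = 0 + o B₁ :=
        calc γ + o B₂ = (o B₁ + o B₂) + o B₂ := by rw [h8]
          _ = o B₁ := ac _ _
          _ = 0 + o B₁ := (zero_add _).symm
      exact hne (h.uni γ hγ 0 Ag.zero_mem B₂ hB₂ B₁ hB₁ h9).2.symm
    · by_cases h3 : B₃ = B'
      · rw [h3] at h8; exact ⟨γ, hγ, h8⟩
      · exfalso
        have h4 := h1 B₃ hB₃ h3
        have h5 : (o B₁ + o B₂) (c B') x = (γ + o B₃) (c B') x := by rw [h8]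
        rw [LinearMap.add_apply, LinearMap.add_apply, LinearMap.add_apply, LinearMap.add_apply,
          h1 B₁ hB₁ hn1, h1 B₂ hB₂ hn2, h4, h.gker hγ hPP, LinearMap.zero_apply] at h5
        exact absurd h5 (by decide)
  -- three further members
  have h3 : 3 ≤ (S \ {B'}).ncard := by
    rw [Set.ncard_sdiff_singleton_of_mem hB'1]
    omega
  obtain ⟨T, hT, hTc⟩ := Set.exists_subset_card_eq h3
  obtain ⟨B₁, B₂, B₃, h12, h13, h23, rfl⟩ := Set.ncard_eq_three.mp hTc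
  have m1 := hT (show B₁ ∈ ({B₁, B₂, B₃} : Set (DSub V)) by simp)
  have m2 := hT (show B₂ ∈ ({B₁, B₂, B₃} : Set (DSub V)) by simp)
  have m3 := hT (show B₃ ∈ ({B₁, B₂, B₃} : Set (DSub V)) by simp)
  obtain ⟨γ, hγ, e1⟩ := h2 B₁ m1.1 B₂ m2.1 h12 m1.2 m2.2
  obtain ⟨γ', hγ', e2⟩ := h2 B₁ m1.1 B₃ m3.1 h13 m1.2 m3.2
  have e3 : γ' + o B₂ = γ + o B₃ := by
    have e4 : o B₂ = o B₁ + (γ + o B') := by
      rw [← e1, ← add_assoc]
      have : o B₁ + o B₁ = 0 := by
        have := ac (0 : Frm V) (o B₁)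
        rwa [zero_add] at this
      rw [this, zero_add]
    have e5 : o B₃ = o B₁ + (γ' + o B') := by
      rw [← e2, ← add_assoc]
      have : o B₁ + o B₁ = 0 := by
        have := ac (0 : Frm V) (o B₁)
        rwa [zero_add] at this
      rw [this, zero_add]
    rw [e4, e5]
    abel
  exact h23 (h.uni γ' hγ' γ hγ B₂ m2.1 B₃ m3.1 e3).2

/-- counting -/
theorem Ctx.false (h : Ctx e A P Ag S o m d) : False := by
  classical
  obtain ⟨c, hc⟩ := h.exfun
  rcases Nat.lt_or_ge S.ncard 4 with hlt | hge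
  · exact h.small (by omega)
  have hU := Set.ncard_le_ncard (h.allU hge hc) (Set.toFinite _)
  rw [h.ncard_image hc, ncard_sub, h.dimU] at hU
  have hm := h.m2
  have hd := h.d3
  -- the sets `B^⊥ ∖ 0` are disjoint
  have hfin : (SS S m).Finite := Set.toFinite _
  have _ := Fintype.ofFinite V
  let T : DSub V → Finset V := fun B => (Finset.univ.filter fun v => B ≤ ann v).erase 0
  have hT : ∀ B ∈ SS S m, (T B).card + 1 = 2 ^ (d + 1) := by
    intro B hB
    have h1 : ((Finset.univ.filter fun v => B ≤ ann v : Finset V) : Set V) =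
        (UU B : Set V) := by
      ext v
      simp only [Finset.coe_filter, Finset.mem_univ, true_and]
      exact mem_UU.symm
    have h2 : (Finset.univ.filter fun v => B ≤ ann v : Finset V).card = 2 ^ (d + 1) := by
      rw [← Set.ncard_coe_finset, h1, ncard_sub]
      congr 1
      have h3 := finrank_UU B
      rw [hB.2, h.dim] at h3
      omega
    have h4 : (0 : V) ∈ (Finset.univ.filter fun v => B ≤ ann v : Finset V) := by
      rw [Finset.mem_filter]
      refine ⟨Finset.mem_univ _, fun f _ => ?_⟩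
      rw [mem_ann, map_zero]
    rw [Finset.card_erase_of_mem h4, h2]
    have : 0 < 2 ^ (d + 1) := by positivity
    omega
  have hdis : ((hfin.toFinset : Finset (DSub V)) : Set (DSub V)).PairwiseDisjoint T := by
    intro B hB B' hB' hne
    have hB1 : B ∈ SS S m := by simpa using hB
    have hB1' : B' ∈ SS S m := by simpa using hB'
    refine Finset.disjoint_left.mpr fun v hv hv' => ?_
    simp only [T, Finset.mem_erase, Finset.mem_filter, Finset.mem_univ, true_and] at hv hv'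
    refine ann_ne_top hv.1 (top_le_iff.mp ?_)
    rw [← h.top B hB1.1 B' hB1'.1 hne]
    exact sup_le hv.2 hv'.2
  have h1 := Finset.card_biUnion hdis
  have h2 : (hfin.toFinset.biUnion T).card ≤ (Finset.univ.erase (0 : V)).card := by
    refine Finset.card_le_card fun v hv => ?_
    rw [Finset.mem_biUnion] at hv
    obtain ⟨B, _, hv⟩ := hv
    rw [Finset.mem_erase]
    exact ⟨(Finset.mem_erase.mp hv).1, Finset.mem_univ _⟩
  rw [Finset.card_erase_of_mem (Finset.mem_univ _), Finset.card_univ] at h2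
  have h3 : Fintype.card V = 2 ^ (m + d + 1) := by
    rw [← Nat.card_eq_fintype_card, ← h.dim]
    have := Module.natCard_eq_pow_finrank (K := ZMod 2) (V := V)
    rwa [Nat.card_zmod] at this
  have h4 : ∑ B ∈ hfin.toFinset, (T B).card = (SS S m).ncard * (2 ^ (d + 1) - 1) := by
    rw [Set.ncard_eq_toFinset_card (SS S m) hfin, ← smul_eq_mul, ← Finset.sum_const]
    refine Finset.sum_congr rfl fun B hB => ?_
    have := hT B (by simpa using hB)
    omega
  rw [h1, h4, h3] at h2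
  -- arithmetic
  obtain ⟨e', rfl⟩ : ∃ e, d = e + 1 := ⟨d - 1, by omega⟩
  obtain ⟨k, rfl⟩ : ∃ k, m = k + 2 := ⟨m - 2, by omega⟩
  have h5 : 2 ^ (k + 2 + 1) - 1 ≤ (SS S (k + 2)).ncard := by omega
  have h6 := (Nat.mul_le_mul_right (2 ^ (e' + 1 + 1) - 1) h5).trans h2
  have e1 : 2 ^ (k + 2 + 1) = 8 * 2 ^ k := by ring
  have e2 : 2 ^ (e' + 1 + 1) = 4 * 2 ^ e' := by ring
  have e3 : 2 ^ (k + 2 + (e' + 1) + 1) = 16 * (2 ^ k * 2 ^ e') := by ring
  rw [e1, e2, e3] at h6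
  have p1 : 1 ≤ 2 ^ k := Nat.one_le_two_pow
  have p2 : 1 ≤ 2 ^ e' := Nat.one_le_two_pow
  obtain ⟨x, hx⟩ : ∃ x, 2 ^ k = x + 1 := ⟨2 ^ k - 1, by omega⟩
  obtain ⟨y, hy⟩ : ∃ y, 2 ^ e' = y + 1 := ⟨2 ^ e' - 1, by omega⟩
  rw [hx, hy] at h6
  have q1 : 8 * (x + 1) - 1 = 8 * x + 7 := by omega
  have q2 : 4 * (y + 1) - 1 = 4 * y + 3 := by omega
  have q3 : 16 * ((x + 1) * (y + 1)) - 1 = 16 * x * y + 16 * x + 16 * y + 15 := by
    have : 16 * ((x + 1) * (y + 1)) = 16 * x * y + 16 * x + 16 * y + 16 := by ring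
    omega
  rw [q1, q2, q3] at h6
  have : (8 * x + 7) * (4 * y + 3) = 32 * x * y + 24 * x + 28 * y + 21 := by ring
  rw [this] at h6
  nlinarith

end

end Pool.Agent.W724.ELG
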